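import Mathlib

/-!
MP_9d29f5_al, project DM, block D (finite generation): paths in Cayley graphs.
Joined X S a b: there is a path a = g_0, g_1, ..., g_k = b inside S with g_i^-1 g_(i+1) in X.
-/
set_option autoImplicit false

namespace Pool.Agent.H13.DM

variable {K : Type*} [Group K]

/-- one step of a path inside S (target in S) -/
def Step (X S : Set K) (g h : K) : Prop := h ∈ S ∧ g⁻¹ * h ∈ X

/-- a and b are joined by a path with steps in X inside S -/
def Joined (X S : Set K) (a b : K) : Prop := a ∈ S ∧ Relation.ReflTransGen (Step X S) a b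

theorem Joined.refl {X S : Set K} {a : K} (h : a ∈ S) : Joined X S a a := ⟨h, .refl⟩

theorem Joined.left_mem {X S : Set K} {a b : K} (h : Joined X S a b) : a ∈ S := h.1

theorem Joined.right_mem {X S : Set K} {a b : K} (h : Joined X S a b) : b ∈ S := by
  obtain ⟨h1, h2⟩ := h
  induction h2 with
  | refl => exact h1
  | tail _ h3 _ => exact h3.1

theorem Joined.trans {X S : Set K} {a b c : K} (h : Joined X S a b) (h' : Joined X S b c) :
    Joined X S a c := ⟨h.1, h.2.trans h'.2⟩

theorem Joined.tail {X S : Set K} {a b c : K} (h : Joined X S a b) (hc : c ∈ S)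
    (h' : b⁻¹ * c ∈ X) : Joined X S a c := ⟨h.1, h.2.tail ⟨hc, h'⟩⟩

theorem Joined.single {X S : Set K} {a b : K} (ha : a ∈ S) (hb : b ∈ S)
    (h' : a⁻¹ * b ∈ X) : Joined X S a b := (Joined.refl ha).tail hb h'

theorem Joined.symm {X S : Set K} (hX : ∀ x ∈ X, x⁻¹ ∈ X) {a b : K} (h : Joined X S a b) :
    Joined X S b a := by
  have key : ∀ b, Relation.ReflTransGen (Step X S) a b → a ∈ S → Joined X S b a := by
    intro b hb ha
    induction hb with
    | refl => exact Joined.refl ha
    | tail h1 h2 ih =>
      rename_i b c
      have hbS : b ∈ S := ih.1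
      refine (Joined.single h2.1 hbS ?_).trans ih
      have := hX _ h2.2
      rwa [mul_inv_rev, inv_inv] at this
  exact key b h.2 h.1

theorem Joined.mono {X S T : Set K} (hST : S ⊆ T) {a b : K} (h : Joined X S a b) :
    Joined X T a b :=
  by
  refine ⟨hST h.1, ?_⟩
  have h2 := h.2
  induction h2 with
  | refl => exact .refl
  | tail h3 h4 ih => exact (ih ⟨h.1, h3⟩).tail ⟨hST h4.1, h4.2⟩

/-- left translation of a path -/
theorem Joined.translate {X S T : Set K} (g : K) (hST : ∀ s ∈ S, g * s ∈ T) {a b : K}
    (h : Joined X S a b) : Joined X T (g * a) (g * b) := by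
  refine ⟨hST _ h.1, ?_⟩
  have h2 := h.2
  induction h2 with
  | refl => exact .refl
  | tail h3 h4 ih =>
    exact (ih ⟨h.1, h3⟩).tail ⟨hST _ h4.1, by simpa [mul_assoc] using h4.2⟩

/-- image of a path under a map which sends steps to paths -/
theorem Joined.map {L : Type*} [Group L] {X S : Set K} {Y T : Set L} (f : K → L)
    (hf : ∀ g h, g ∈ S → h ∈ S → g⁻¹ * h ∈ X → Joined Y T (f g) (f h))
    (h0 : ∀ g ∈ S, f g ∈ T) {a b : K}
    (h : Joined X S a b) : Joined Y T (f a) (f b) := by
  obtain ⟨h1, h2⟩ := h
  have key : ∀ b, Relation.ReflTransGen (Step X S) a b → Joined Y T (f a) (f b) := by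
    intro b hb
    induction hb with
    | refl => exact Joined.refl (h0 a h1)
    | tail h3 h4 ih =>
      rename_i b c
      have hb : b ∈ S := (show Joined X S a b from ⟨h1, h3⟩).right_mem
      exact ih.trans (hf b c hb h4.1 h4.2)
  exact key b h2

/-- a path has finitely many vertices -/
theorem Joined.finite {X S : Set K} {a b : K} (h : Joined X S a b) :
    ∃ F : Finset K, (∀ g ∈ F, g ∈ S) ∧ Joined X (F : Set K) a b := by
  classical
  obtain ⟨h1, h2⟩ := h
  have key : ∀ b, Relation.ReflTransGen (Step X S) a b →
      ∃ F : Finset K, (∀ g ∈ F, g ∈ S) ∧ Joined X (F : Set K) a b := by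
    intro b hb
    induction hb with
    | refl => exact ⟨{a}, by simpa using h1, Joined.refl (by simp)⟩
    | tail h3 h4 ih =>
      rename_i b c
      obtain ⟨F, hF, hJ⟩ := ih
      refine ⟨insert c F, ?_, ?_⟩
      · intro g hg
        rcases Finset.mem_insert.1 hg with rfl | hg
        · exact h4.1
        · exact hF g hg
      · exact (hJ.mono (by intro x hx; simp at hx ⊢; exact Or.inr hx)).tail (by simp) h4.2
  exact key b h2

/-- if X is symmetric and generates K then any two elements are joined in K -/
theorem joined_univ {X : Set K} (hX : ∀ x ∈ X, x⁻¹ ∈ X) (hgen : Subgroup.closure X = ⊤)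
    (a b : K) : Joined X Set.univ a b := by
  have key : ∀ g : K, Joined X Set.univ 1 g := by
    intro g
    have hg : g ∈ Subgroup.closure X := by rw [hgen]; trivial
    induction hg using Subgroup.closure_induction with
    | mem x hx => exact Joined.single trivial trivial (by simpa using hx)
    | one => exact Joined.refl trivial
    | mul x y _ _ hx hy =>
      have := hy.translate x (T := Set.univ) (fun _ _ => trivial)
      rw [mul_one] at this
      exact hx.trans this
    | inv x _ hx =>
      have := (hx.symm hX).translate x⁻¹ (T := Set.univ) (fun _ _ => trivial)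
      simpa using this
  have := (key (a⁻¹ * b)).translate a (T := Set.univ) (fun _ _ => trivial)
  simpa using this

/-- Superlevel sets of chi are connected in the Cayley graph of K with respect to X. -/
def Conn (X : Set K) (χ : K → ℝ) : Prop :=
  ∀ (a b : K) (c : ℝ), c < χ a → c < χ b → Joined X {g | c < χ g} a b

/-- The finite criterion: some t with chi t > 0 such that for each x in X the points t and x t
are joined by a path on which chi is larger than min 0 (chi x). -/
def Crit (X : Set K) (χ : K → ℝ) : Prop :=
  ∃ t : K, 0 < χ t ∧ ∀ x ∈ X, Joined X {g | min 0 (χ x) < χ g} t (x * t)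

end Pool.Agent.H13.DM
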