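import Mathlib
import Pool.Agent.H13.DM.BNS.Joined

/-!
MP_9d29f5_al, project DM, block D (finite generation), file Crit (job DM-CRIT).
Prove the four theorems in place (helper lemmas welcome).

PAPER PROOFS. K group, X finite symmetric generating set, chi : K -> R additive
(chi (g h) = chi g + chi h, so chi 1 = 0, chi g^-1 = - chi g).

(push) Let t, eps > 0 be such that for all x in X: Joined X {min 0 (chi x) + eps <= chi} t (x t).
If Joined X {c <= chi} a b then Joined X {c + eps <= chi} (a t) (b t):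
use Joined.map with f g = g t: for a step g -> g x with chi g, chi (g x) >= c the path
g * (path t -> x t) has chi >= chi g + min 0 (chi x) + eps = min (chi g) (chi (g x)) + eps;
and chi (g t) >= c + eps because chi t >= eps + min 0 (chi x) for some x ... (in fact take
chi t >= eps as an additional requirement on eps). Iterate: Joined X {c <= chi} a b gives
Joined X {c + m eps <= chi} (a t^m) (b t^m) for all m.

(weak) conn_of_weak: suppose A is a real number such that all a b c with c <= chi a, c <= chi b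
satisfy Joined X {c - A <= chi} a b. Then Conn X chi. Proof: if chi = 0 on X then chi = 0 and the
claim follows from joined_univ. Otherwise there is t in X with chi t > 0 (X symmetric). Given a, b
with chi a, chi b > c let m be large with m chi t - A > 0 and c' = min (chi a) (chi b): the path a, a t, ..., a t^m has chi >=
chi a > c; the same for b; and a t^m, b t^m are joined in {c' + m chi t - A <= chi}, contained in
{c < chi}.

(1) conn_of_crit: let t be as in Crit. X finite and all paths finite (Joined.finite), so there is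
eps > 0 with chi t >= eps and Joined X {min 0 (chi x) + eps <= chi} t (x t) for all x in X. Let A be such that
Joined X {-A <= chi} 1 t (joined_univ + Joined.finite); then Joined X {chi a - A <= chi} a (a t^m)
for every m (concatenate a t^i * path, chi (t^i) >= 0). For arbitrary a, b: joined_univ and
Joined.finite give c0 with Joined X {c0 <= chi} a b, (push) gives
Joined X {c0 + m eps <= chi} (a t^m) (b t^m); for m large c0 + m eps >= c - A. So the hypothesis of
(weak) holds with this A. (The case chi t > 0 excludes nothing: fine.)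

(2) crit_of_conn: t with chi t > 0: t and x t lie in the superlevel set {min 0 (chi x) < chi}.

(3) conn_comp: let Conn X chi and sigma an automorphism. Let A be such that for each x in X the
element sigma^-1 x satisfies Joined X {-A <= chi o sigma} 1 (sigma^-1 x). If c <= chi (sigma a),
c <= chi (sigma b), then sigma a, sigma b are joined in {c - 1 < chi}; apply Joined.map with
f = sigma^-1: a step g -> g x goes to the path (sigma^-1 g) * (path 1 -> sigma^-1 x) on which
chi o sigma >= chi g - A > c - 1 - A. So (weak) holds for chi o sigma with A + 1.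

(4) conn_open: choose g with l0 (phi g) not 0, so t = g or g^-1 has l0 (phi t) > 0. By crit_of_conn and
Joined.finite for each x in X a finite set F_x with Joined X F_x t (x t) and
min 0 (l0 (phi x)) < l0 (phi g) for g in F_x. Finitely many strict inequalities between continuous functions of l:
they hold for l near l0. So Crit for l near l0 and (1) applies.
-/
set_option autoImplicit false

namespace Pool.Agent.H13.DM

open Topology

variable {K : Type*} [Group K]

theorem crit_one {χ : K → ℝ} (hχ : ∀ g h, χ (g * h) = χ g + χ h) : χ 1 = 0 := by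
  have h := hχ 1 1
  rw [mul_one] at h
  linarith

theorem crit_inv {χ : K → ℝ} (hχ : ∀ g h, χ (g * h) = χ g + χ h) (g : K) : χ g⁻¹ = -χ g := by
  have h := hχ g g⁻¹
  rw [mul_inv_cancel, crit_one hχ] at h
  linarith

theorem crit_pow {χ : K → ℝ} (hχ : ∀ g h, χ (g * h) = χ g + χ h) (t : K) (m : ℕ) :
    χ (t ^ m) = m * χ t := by
  induction m with
  | zero => rw [pow_zero, crit_one hχ]; simp
  | succ m ih => rw [pow_succ, hχ, ih]; push_cast; ring

theorem crit_le {X : Set K} (χ : K → ℝ) {a b : K} (h : Joined X Set.univ a b) :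
    ∃ c : ℝ, Joined X {g | c ≤ χ g} a b := by
  obtain ⟨F, -, hF⟩ := h.finite
  obtain ⟨g₀, -, hg₀⟩ := F.exists_min_image χ ⟨a, hF.left_mem⟩
  exact ⟨χ g₀, hF.mono fun g hg => hg₀ g hg⟩

theorem crit_lt {X : Set K} (χ : K → ℝ) {a b : K} {c : ℝ} (h : Joined X {g | c < χ g} a b) :
    ∃ c' : ℝ, c < c' ∧ Joined X {g | c' ≤ χ g} a b := by
  obtain ⟨F, hFS, hF⟩ := h.finite
  obtain ⟨g₀, hg, hg₀⟩ := F.exists_min_image χ ⟨a, hF.left_mem⟩
  exact ⟨χ g₀, hFS g₀ hg, hF.mono fun g hg => hg₀ g hg⟩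

theorem conn_of_weak {X : Set K} (hX : ∀ x ∈ X, x⁻¹ ∈ X) (hgen : Subgroup.closure X = ⊤)
    {χ : K → ℝ} (hχ : ∀ g h, χ (g * h) = χ g + χ h) (A : ℝ)
    (hA : ∀ (a b : K) (c : ℝ), c ≤ χ a → c ≤ χ b → Joined X {g | c - A ≤ χ g} a b) :
    Conn X χ := by
  intro a b c ha hb
  by_cases h0 : ∀ x ∈ X, χ x = 0
  · have h1 : ∀ g : K, χ g = 0 := by
      intro g
      have hg : g ∈ Subgroup.closure X := by rw [hgen]; trivial
      induction hg using Subgroup.closure_induction with
      | mem x hx => exact h0 x hx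
      | one => exact crit_one hχ
      | mul x y _ _ hx hy => rw [hχ, hx, hy, add_zero]
      | inv x _ hx => rw [crit_inv hχ, hx, neg_zero]
    refine (joined_univ hX hgen a b).mono fun g _ => ?_
    show c < χ g
    rw [h1 g, ← h1 a]
    exact ha
  · push Not at h0
    obtain ⟨t, htX, ht⟩ : ∃ t ∈ X, 0 < χ t := by
      obtain ⟨x, hx, hx0⟩ := h0
      rcases lt_or_gt_of_ne hx0 with h | h
      · exact ⟨x⁻¹, hX x hx, by rw [crit_inv hχ]; linarith⟩
      · exact ⟨x, hx, h⟩
    obtain ⟨m, hm⟩ := exists_nat_gt (A / χ t)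
    have hm' : A < m * χ t := (div_lt_iff₀ ht).1 hm
    have hpath : ∀ a : K, c < χ a → ∀ m : ℕ, Joined X {g | c < χ g} a (a * t ^ m) := by
      intro a ha m
      induction m with
      | zero =>
        rw [pow_zero, mul_one]
        exact Joined.refl ha
      | succ m ih =>
        refine ih.tail ?_ ?_
        · show c < χ (a * t ^ (m + 1))
          rw [hχ, crit_pow hχ]
          have : (0 : ℝ) ≤ ((m + 1 : ℕ) : ℝ) * χ t := by positivity
          linarith
        · have h5 : (a * t ^ m)⁻¹ * (a * t ^ (m + 1)) = t := by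
            rw [pow_succ]
            group
          rw [h5]
          exact htX
    have hmid : Joined X {g | c < χ g} (a * t ^ m) (b * t ^ m) := by
      have h2 := hA (a * t ^ m) (b * t ^ m) (min (χ a) (χ b) + m * χ t)
        (by rw [hχ, crit_pow hχ]; linarith [min_le_left (χ a) (χ b)])
        (by rw [hχ, crit_pow hχ]; linarith [min_le_right (χ a) (χ b)])
      refine h2.mono fun g hg => ?_
      have hg' : min (χ a) (χ b) + m * χ t - A ≤ χ g := hg
      have h3 : c < min (χ a) (χ b) := lt_min ha hb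
      show c < χ g
      linarith
    exact ((hpath a ha m).trans hmid).trans ((hpath b hb m).symm hX)

theorem crit_push {X : Set K} {χ : K → ℝ} (hχ : ∀ g h, χ (g * h) = χ g + χ h) {t : K} {ε : ℝ}
    (hε : ε ≤ χ t) (hx : ∀ x ∈ X, Joined X {g | min 0 (χ x) + ε ≤ χ g} t (x * t)) {a b : K} {c : ℝ}
    (h : Joined X {g | c ≤ χ g} a b) : Joined X {g | c + ε ≤ χ g} (a * t) (b * t) := by
  refine h.map (f := fun g => g * t) (fun g k hg hk hgk => ?_) (fun g hg => ?_)
  · have h1 := (hx _ hgk).translate (T := {g | c + ε ≤ χ g}) g (fun s hs => ?_)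
    · have h2 : g * (g⁻¹ * k * t) = k * t := by group
      rw [h2] at h1
      exact h1
    · have hs' : min 0 (χ (g⁻¹ * k)) + ε ≤ χ s := hs
      have hg' : c ≤ χ g := hg
      have hk' : c ≤ χ k := hk
      rw [hχ, crit_inv hχ] at hs'
      show c + ε ≤ χ (g * s)
      rw [hχ]
      rcases le_total 0 (-χ g + χ k) with h3 | h3
      · rw [min_eq_left h3] at hs'
        linarith
      · rw [min_eq_right h3] at hs'
        linarith
  · have hg' : c ≤ χ g := hg
    show c + ε ≤ χ (g * t)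
    rw [hχ]
    linarith

theorem crit_push_pow {X : Set K} {χ : K → ℝ} (hχ : ∀ g h, χ (g * h) = χ g + χ h) {t : K} {ε : ℝ}
    (hε : ε ≤ χ t) (hx : ∀ x ∈ X, Joined X {g | min 0 (χ x) + ε ≤ χ g} t (x * t)) {a b : K} {c : ℝ}
    (h : Joined X {g | c ≤ χ g} a b) (m : ℕ) :
    Joined X {g | c + m * ε ≤ χ g} (a * t ^ m) (b * t ^ m) := by
  induction m with
  | zero => simpa using h
  | succ m ih =>
    have h1 := crit_push hχ hε hx ih
    rw [mul_assoc, mul_assoc, ← pow_succ] at h1
    refine h1.mono fun g hg => ?_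
    have hg' : c + m * ε + ε ≤ χ g := hg
    show c + ((m + 1 : ℕ) : ℝ) * ε ≤ χ g
    push_cast
    linarith

theorem conn_of_crit {X : Set K} (hX : ∀ x ∈ X, x⁻¹ ∈ X) (hfin : X.Finite)
    (hgen : Subgroup.closure X = ⊤) {χ : K → ℝ} (hχ : ∀ g h, χ (g * h) = χ g + χ h)
    (h : Crit X χ) : Conn X χ := by
  obtain ⟨t, ht, hx⟩ := h
  obtain ⟨ε, hε0, hεt, hεx⟩ : ∃ ε : ℝ, 0 < ε ∧ ε ≤ χ t ∧
      ∀ x ∈ X, Joined X {g | min 0 (χ x) + ε ≤ χ g} t (x * t) := by
    have h1 : ∀ᶠ ε in 𝓝[>] (0 : ℝ), ∀ x ∈ X,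
        Joined X {g | min 0 (χ x) + ε ≤ χ g} t (x * t) := by
      rw [Filter.eventually_all_finite hfin]
      intro x hxX
      obtain ⟨c', hc', hJ⟩ := crit_lt χ (hx x hxX)
      filter_upwards [Ioc_mem_nhdsGT (sub_pos.2 hc')] with ε hε
      refine hJ.mono fun g hg => ?_
      have hg' : c' ≤ χ g := hg
      show min 0 (χ x) + ε ≤ χ g
      linarith [hε.2]
    have h2 : ∀ᶠ ε in 𝓝[>] (0 : ℝ), ε ∈ Set.Ioc 0 (χ t) := Ioc_mem_nhdsGT ht
    obtain ⟨ε, hε1, hε2⟩ := (h1.and h2).exists
    exact ⟨ε, hε2.1, hε2.2, hε1⟩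
  obtain ⟨c₁, hc₁⟩ := crit_le χ (joined_univ hX hgen 1 t)
  have hpath : ∀ (a : K) (m : ℕ), Joined X {g | χ a - -c₁ ≤ χ g} a (a * t ^ m) := by
    intro a m
    induction m with
    | zero =>
      rw [pow_zero, mul_one]
      have h3 : c₁ ≤ χ 1 := hc₁.left_mem
      rw [crit_one hχ] at h3
      refine Joined.refl ?_
      show χ a - -c₁ ≤ χ a
      linarith
    | succ m ih =>
      have h1 := hc₁.translate (T := {g | χ a - -c₁ ≤ χ g}) (a * t ^ m) (fun s hs => ?_)
      · rw [mul_one] at h1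
        have h2 := ih.trans h1
        rw [mul_assoc, ← pow_succ] at h2
        exact h2
      · have hs' : c₁ ≤ χ s := hs
        show χ a - -c₁ ≤ χ (a * t ^ m * s)
        rw [hχ, hχ, crit_pow hχ]
        have : (0 : ℝ) ≤ (m : ℝ) * χ t := by positivity
        linarith
  refine conn_of_weak hX hgen hχ (-c₁) fun a b c ha hb => ?_
  obtain ⟨c₀, hc₀⟩ := crit_le χ (joined_univ hX hgen a b)
  obtain ⟨m, hm⟩ := exists_nat_gt ((c - -c₁ - c₀) / ε)
  have hm' : c - -c₁ - c₀ < m * ε := (div_lt_iff₀ hε0).1 hm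
  have hmid := crit_push_pow hχ hεt hεx hc₀ m
  have e1 : Joined X {g | c - -c₁ ≤ χ g} a (a * t ^ m) := by
    refine (hpath a m).mono fun g hg => ?_
    have hg' : χ a - -c₁ ≤ χ g := hg
    show c - -c₁ ≤ χ g
    linarith
  have e2 : Joined X {g | c - -c₁ ≤ χ g} b (b * t ^ m) := by
    refine (hpath b m).mono fun g hg => ?_
    have hg' : χ b - -c₁ ≤ χ g := hg
    show c - -c₁ ≤ χ g
    linarith
  have e3 : Joined X {g | c - -c₁ ≤ χ g} (a * t ^ m) (b * t ^ m) := by
    refine hmid.mono fun g hg => ?_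
    have hg' : c₀ + m * ε ≤ χ g := hg
    show c - -c₁ ≤ χ g
    linarith
  exact (e1.trans e3).trans (e2.symm hX)

theorem crit_of_conn {X : Set K} {χ : K → ℝ} (hχ : ∀ g h, χ (g * h) = χ g + χ h)
    (h : Conn X χ) {t : K} (ht : 0 < χ t) :
    ∀ x ∈ X, Joined X {g | min 0 (χ x) < χ g} t (x * t) := by
  intro x _
  refine h t (x * t) (min 0 (χ x)) ?_ ?_
  · exact (min_le_left _ _).trans_lt ht
  · rw [hχ]
    linarith [min_le_right 0 (χ x)]

theorem conn_comp {X : Set K} (hX : ∀ x ∈ X, x⁻¹ ∈ X) (hfin : X.Finite)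
    (hgen : Subgroup.closure X = ⊤) {χ : K → ℝ} (hχ : ∀ g h, χ (g * h) = χ g + χ h)
    (h : Conn X χ) (σ : K ≃* K) : Conn X (fun g => χ (σ g)) := by
  have hχσ : ∀ g h, (fun g => χ (σ g)) (g * h) = (fun g => χ (σ g)) g + (fun g => χ (σ g)) h := by
    intro g h
    show χ (σ (g * h)) = χ (σ g) + χ (σ h)
    rw [map_mul, hχ]
  obtain ⟨A, hA0, hA⟩ : ∃ A : ℝ, 0 ≤ A ∧
      ∀ x ∈ X, Joined X {g | -A ≤ χ (σ g)} 1 (σ.symm x) := by
    have h1 : ∀ᶠ A in Filter.atTop (α := ℝ), ∀ x ∈ X,
        Joined X {g | -A ≤ χ (σ g)} 1 (σ.symm x) := by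
      rw [Filter.eventually_all_finite hfin]
      intro x hxX
      obtain ⟨c, hc⟩ := crit_le (fun g => χ (σ g)) (joined_univ hX hgen 1 (σ.symm x))
      filter_upwards [Filter.eventually_ge_atTop (-c)] with A hA
      refine hc.mono fun g hg => ?_
      have hg' : c ≤ χ (σ g) := hg
      show -A ≤ χ (σ g)
      linarith
    obtain ⟨A, hA1, hA2⟩ := (h1.and (Filter.eventually_ge_atTop (0 : ℝ))).exists
    exact ⟨A, hA2, hA1⟩
  refine conn_of_weak hX hgen hχσ (A + 1) fun a b c ha hb => ?_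
  have ha' : c ≤ χ (σ a) := ha
  have hb' : c ≤ χ (σ b) := hb
  have h1 := h (σ a) (σ b) (c - 1) (by linarith) (by linarith)
  have h2 := h1.map (Y := X) (T := {g | c - (A + 1) ≤ χ (σ g)}) (f := fun g => σ.symm g)
    (fun g k hg hk hgk => ?_) (fun g hg => ?_)
  · simpa using h2
  · have h3 := (hA _ hgk).translate (T := {g | c - (A + 1) ≤ χ (σ g)}) (σ.symm g) (fun s hs => ?_)
    · have h4 : σ.symm g * σ.symm (g⁻¹ * k) = σ.symm k := by
        rw [← map_mul, mul_inv_cancel_left]
      rw [h4, mul_one] at h3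
      exact h3
    · have hs' : -A ≤ χ (σ s) := hs
      have hg' : c - 1 < χ g := hg
      show c - (A + 1) ≤ χ (σ (σ.symm g * s))
      rw [map_mul, hχ, MulEquiv.apply_symm_apply]
      linarith
  · have hg' : c - 1 < χ g := hg
    show c - (A + 1) ≤ χ (σ (σ.symm g))
    rw [MulEquiv.apply_symm_apply]
    linarith

theorem conn_open {V : Type*} [NormedAddCommGroup V] [InnerProductSpace ℝ V]
    {X : Set K} (hX : ∀ x ∈ X, x⁻¹ ∈ X) (hfin : X.Finite)
    (hgen : Subgroup.closure X = ⊤) (φ : K → V) (hφ : ∀ g h, φ (g * h) = φ g + φ h)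
    (u₀ : V) (hu₀ : ∃ g, inner ℝ u₀ (φ g) ≠ 0)
    (h : Conn X (fun g => inner ℝ u₀ (φ g))) :
    ∀ᶠ u in 𝓝 u₀, Conn X (fun g => inner ℝ u (φ g)) := by
  have hχ : ∀ u : V, ∀ g h, (fun g => (inner ℝ u (φ g) : ℝ)) (g * h) =
      (fun g => (inner ℝ u (φ g) : ℝ)) g + (fun g => (inner ℝ u (φ g) : ℝ)) h := by
    intro u g h
    show (inner ℝ u (φ (g * h)) : ℝ) = inner ℝ u (φ g) + inner ℝ u (φ h)
    rw [hφ, inner_add_right]
  have hcont : ∀ g : K, Continuous (fun u : V => (inner ℝ u (φ g) : ℝ)) := fun g =>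
    continuous_id.inner continuous_const
  obtain ⟨t, ht⟩ : ∃ t : K, 0 < (inner ℝ u₀ (φ t) : ℝ) := by
    obtain ⟨g, hg⟩ := hu₀
    rcases lt_or_gt_of_ne hg with h1 | h1
    · refine ⟨g⁻¹, ?_⟩
      have h2 := crit_inv (χ := fun g => (inner ℝ u₀ (φ g) : ℝ)) (hχ u₀) g
      have h3 : (inner ℝ u₀ (φ g⁻¹) : ℝ) = -(inner ℝ u₀ (φ g)) := h2
      rw [h3]
      linarith
    · exact ⟨g, h1⟩
  have h1 := crit_of_conn (χ := fun g => (inner ℝ u₀ (φ g) : ℝ)) (hχ u₀) h ht
  have h2 : ∀ᶠ u in 𝓝 u₀, ∀ x ∈ X,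
      Joined X {g | min 0 ((inner ℝ u (φ x) : ℝ)) < inner ℝ u (φ g)} t (x * t) := by
    rw [Filter.eventually_all_finite hfin]
    intro x hxX
    obtain ⟨F, hFS, hF⟩ := (h1 x hxX).finite
    have h3 : ∀ᶠ u in 𝓝 u₀, ∀ g ∈ F, min 0 ((inner ℝ u (φ x) : ℝ)) < inner ℝ u (φ g) := by
      rw [Filter.eventually_all_finset]
      intro g hg
      have h4 : min 0 ((inner ℝ u₀ (φ x) : ℝ)) < inner ℝ u₀ (φ g) := hFS g hg
      exact (continuous_const.min (hcont x)).continuousAt.eventually_lt
        (hcont g).continuousAt h4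
    filter_upwards [h3] with u hu
    exact hF.mono fun g hg => hu g hg
  have h5 : ∀ᶠ u in 𝓝 u₀, 0 < (inner ℝ u (φ t) : ℝ) :=
    (hcont t).continuousAt.eventually_const_lt ht
  filter_upwards [h2, h5] with u hu2 hu5
  exact conn_of_crit (χ := fun g => (inner ℝ u (φ g) : ℝ)) hX hfin hgen (hχ u) ⟨t, hu5, hu2⟩

end Pool.Agent.H13.DM
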