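import Mathlib

/-!
MP_9d29f5_al, project DM, block D (finite generation), file Dyn (job DM-DYN).
Prove dyn in place (helper lemmas welcome).

PAPER PROOF. Let u be nonzero.
Case 1: P u is not 0. Put v_n = norm(l)^(-n) T^n u. Then norm (P v_n) = norm (P u) =: c > 0 for all n and
norm (Q v_n) = (norm m / norm l)^n norm (Q u) -> 0. The linear map (P,Q) : V -> C x C is injective (hinj), V is finite dimensional,
so (v_n) is bounded (antilipschitz); a subsequence converges to v with norm (P v) = c > 0 and Q v = 0, so v is not 0 and v in G by hE.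
G is open, so v_n in G for some n, by scaling T^n u in G, and by hT (n times) u in G.
Case 2: P u = 0. By h0 P (T0 u) is not 0, so T0 u (nonzero) is in G by case 1, and u in G by hT0.
-/
set_option autoImplicit false

namespace Pool.Agent.H13.DM

open Filter Topology in
theorem dyn_aux {V : Type*} [NormedAddCommGroup V] [NormedSpace ℝ V] [FiniteDimensional ℝ V]
    (G : Set V) (hopen : IsOpen G) (hscale : ∀ c : ℝ, 0 < c → ∀ u ∈ G, c • u ∈ G)
    (T : V →ₗ[ℝ] V) (hT : ∀ u, T u ∈ G → u ∈ G)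
    (P Q : V →ₗ[ℝ] ℂ) (l m : ℂ) (hP : ∀ u, P (T u) = l * P u) (hQ : ∀ u, Q (T u) = m * Q u)
    (hl : 1 < ‖l‖) (hm : ‖m‖ < 1) (hinj : ∀ u, P u = 0 → Q u = 0 → u = 0)
    (hE : ∀ u, u ≠ 0 → Q u = 0 → u ∈ G) (u : V) (hu : P u ≠ 0) : u ∈ G := by
  have hl0 : 0 < ‖l‖ := lt_trans one_pos hl
  have hPn : ∀ n : ℕ, P ((T ^ n) u) = l ^ n * P u := by
    intro n
    induction n with
    | zero => simp
    | succ n ih => rw [pow_succ', Module.End.mul_apply, hP, ih, pow_succ']; ring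
  have hQn : ∀ n : ℕ, Q ((T ^ n) u) = m ^ n * Q u := by
    intro n
    induction n with
    | zero => simp
    | succ n ih => rw [pow_succ', Module.End.mul_apply, hQ, ih, pow_succ']; ring
  have hback : ∀ n : ℕ, (T ^ n) u ∈ G → u ∈ G := by
    intro n
    induction n with
    | zero => intro h; simpa using h
    | succ n ih =>
      intro h
      rw [pow_succ', Module.End.mul_apply] at h
      exact ih (hT _ h)
  set v : ℕ → V := fun n => (‖l‖ ^ n)⁻¹ • (T ^ n) u with hv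
  have hPv : ∀ n, ‖P (v n)‖ = ‖P u‖ := by
    intro n
    rw [hv]
    simp only [map_smul, hPn, norm_smul, norm_mul, norm_pow, norm_inv, norm_norm]
    field_simp
  have hQv : ∀ n, ‖Q (v n)‖ = (‖m‖ / ‖l‖) ^ n * ‖Q u‖ := by
    intro n
    rw [hv]
    simp only [map_smul, hQn, norm_smul, norm_mul, norm_pow, norm_inv, norm_norm]
    rw [div_pow]
    field_simp
  have hr0 : 0 ≤ ‖m‖ / ‖l‖ := by positivity
  have hr1 : ‖m‖ / ‖l‖ < 1 := by
    rw [div_lt_one hl0]
    linarith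
  have hQv' : ∀ n, ‖Q (v n)‖ ≤ ‖Q u‖ := by
    intro n
    rw [hQv]
    calc (‖m‖ / ‖l‖) ^ n * ‖Q u‖ ≤ 1 * ‖Q u‖ :=
          mul_le_mul_of_nonneg_right (pow_le_one₀ hr0 hr1.le) (norm_nonneg _)
      _ = ‖Q u‖ := one_mul _
  have hQlim : Tendsto (fun n => ‖Q (v n)‖) atTop (𝓝 0) := by
    simp_rw [hQv]
    have := (tendsto_pow_atTop_nhds_zero_of_lt_one hr0 hr1).mul_const (‖Q u‖)
    simpa using this
  have hPc : Continuous P := P.continuous_of_finiteDimensional
  have hQc : Continuous Q := Q.continuous_of_finiteDimensional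
  have hker : LinearMap.ker (P.prod Q) = ⊥ := by
    rw [LinearMap.ker_eq_bot']
    intro w hw
    have h1 : P w = 0 := congrArg Prod.fst hw
    have h2 : Q w = 0 := congrArg Prod.snd hw
    exact hinj w h1 h2
  have hemb : IsClosedEmbedding (P.prod Q) :=
    LinearMap.isClosedEmbedding_of_injective hker
  have hcomp : IsCompact ((P.prod Q) ⁻¹' (Metric.closedBall 0 ‖P u‖ ×ˢ Metric.closedBall 0 ‖Q u‖)) :=
    hemb.isCompact_preimage ((isCompact_closedBall _ _).prod (isCompact_closedBall _ _))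
  obtain ⟨w, _, φ, hφ, hlim⟩ := hcomp.tendsto_subseq (x := v) (fun n => by
    refine ⟨?_, ?_⟩
    · rw [Metric.mem_closedBall, dist_zero_right]
      exact (hPv n).le
    · rw [Metric.mem_closedBall, dist_zero_right]
      exact hQv' n)
  have hPw : ‖P w‖ = ‖P u‖ := by
    have h1 : Tendsto (fun n => ‖P (v (φ n))‖) atTop (𝓝 ‖P w‖) :=
      ((hPc.tendsto w).comp hlim).norm
    simp_rw [hPv] at h1
    exact (tendsto_nhds_unique h1 tendsto_const_nhds)
  have hQw : ‖Q w‖ = 0 := by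
    have h1 : Tendsto (fun n => ‖Q (v (φ n))‖) atTop (𝓝 ‖Q w‖) :=
      ((hQc.tendsto w).comp hlim).norm
    exact tendsto_nhds_unique h1 (hQlim.comp hφ.tendsto_atTop)
  have hw0 : w ≠ 0 := by
    intro h
    rw [h, map_zero, norm_zero] at hPw
    exact hu (norm_eq_zero.mp hPw.symm)
  have hwG : w ∈ G := hE w hw0 (norm_eq_zero.mp hQw)
  obtain ⟨n, hn⟩ := (hlim.eventually (hopen.mem_nhds hwG)).exists
  have hTn : (T ^ φ n) u ∈ G := by
    have h1 := hscale (‖l‖ ^ φ n) (by positivity) _ hn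
    have h2 : ‖l‖ ^ φ n • (v ∘ φ) n = (T ^ φ n) u := by
      simp only [Function.comp_apply, hv]
      rw [smul_smul, mul_inv_cancel₀ (by positivity), one_smul]
    rwa [h2] at h1
  exact hback _ hTn

theorem dyn {V : Type*} [NormedAddCommGroup V] [NormedSpace ℝ V] [FiniteDimensional ℝ V]
    (G : Set V) (hopen : IsOpen G) (hscale : ∀ c : ℝ, 0 < c → ∀ u ∈ G, c • u ∈ G)
    (T T0 : V →ₗ[ℝ] V) (hT : ∀ u, T u ∈ G → u ∈ G) (hT0 : ∀ u, T0 u ∈ G → u ∈ G)
    (P Q : V →ₗ[ℝ] ℂ) (l m : ℂ) (hP : ∀ u, P (T u) = l * P u) (hQ : ∀ u, Q (T u) = m * Q u)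
    (hl : 1 < ‖l‖) (hm : ‖m‖ < 1) (hinj : ∀ u, P u = 0 → Q u = 0 → u = 0)
    (hE : ∀ u, u ≠ 0 → Q u = 0 → u ∈ G)
    (h0 : ∀ u, u ≠ 0 → P u = 0 → P (T0 u) ≠ 0) : ∀ u, u ≠ 0 → u ∈ G := by
  intro u hu
  by_cases hPu : P u = 0
  · exact hT0 u (dyn_aux G hopen hscale T hT P Q l m hP hQ hl hm hinj hE (T0 u) (h0 u hu hPu))
  · exact dyn_aux G hopen hscale T hT P Q l m hP hQ hl hm hinj hE u hPu

end Pool.Agent.H13.DM
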