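import Mathlib
import Pool.Agent.H13.DM.BNS.Joined
import Pool.Agent.H13.DM.BNS.Crit

/-!
MP_9d29f5_al, project DM, block D (finite generation), file FG (job DM-FG).
Prove ker_fg in place (helper lemmas welcome).

PAPER PROOF. X finite symmetric generating set of K, phi : K -> V additive, V Euclidean.
Write |g| for the norm of phi g and chi_u g = <u, phi g>.

Step 0. V = 0 is allowed: then N = K is finitely generated by X. (Or treat it uniformly: if V = 0 then
all |g| = 0 and Step 4 works with r = 0.)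

Step 1 (compactness). For every unit vector u there is t in X with chi_u t > 0 (otherwise, X being symmetric,
chi_u = 0 on X, so on K, and u is orthogonal to span = V). By crit_of_conn and Joined.finite there are, for every x
in X, a finite set F with Joined X F t (x t) and min 0 (chi_u x) < chi_u g for g in F. Let eps(u) > 0
be smaller than half of all the (finitely many) gaps and half of chi_u t. By continuity there is a ball B(u) around u such that
for u' in B(u): chi_u' g >= min 0 (chi_u' x) + eps(u) for all x in X, g in F, and chi_u' t >= eps(u).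
The unit sphere is compact: finitely many u_1..u_k with balls covering it, t_1..t_k in X, d = min eps(u_j) > 0,
E >= 1 a bound for |g|, all g in all the F's, in X. So for every unit vector u there is j with:
(*) chi_u (t_j) >= d, and for all x in X: Joined X {g : |g| <= E and chi_u g >= min 0 (chi_u x) + d} t_j (x t_j).

Step 2 (push lemma). Let g in K with |g| >= r0 := E^2/d (> 0), u = - phi(g)/|g|, x, p in K with |p| <= E and
chi_u p >= min 0 (chi_u x) + d. Then |g p| <= max |g| |g x| - d/2.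
Proof: |g p|^2 = |g|^2 - 2 |g| chi_u p + |p|^2. If min 0 (chi_u x) = 0: <= |g|^2 - 2 d |g| + E^2 <= |g|^2 - d |g|
<= (|g| - d/2)^2 (as d |g| >= E^2), and |g| >= d/2 since d <= chi_u t_j <= E, |g| >= E^2/d >= E. If chi_u x = -b < 0:
|g x| >= <phi (g x), -u> = |g| + b, and |g p|^2 <= |g|^2 + 2 (b - d) |g| + E^2 <= (|g| + b - d/2)^2.
So |g p| <= |g| + b - d/2 <= |g x| - d/2.

Step 3 (claim). Put r2 = r0 + E, r1 = r2 + E. If a, b in {|g| <= r2} are joined in {|g| <= R}, R >= r1, then they are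
joined in {|g| <= max r1 (R - d/2)}. Proof: for g with |g| >= r0 choose j(g) as in (*) for u = - phi(g)/|g| and let
q(g) = g t_j(g); for |g| < r0 let q(g) = g. Let S' = {|g| <= max r1 (R - d/2)}. Use Joined.map for q: for a step g -> h = g x
with |g|, |h| <= R we show Joined X S' q(g) q(h):
 (i) |g|, |h| < r0: the edge itself (both in S'). (ii) |g| < r0 <= |h|: g -> h -> h t_j(h): |h| <= |g| + E <= r2, |h t| <= r1.
 Symmetric case (steps of X are symmetric, use Joined.symm). (iii) both >= r0: with j = j(g), j' = j(h): the path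
 g * (t_j -> x t_j) has all norms <= max |g| |h| - d/2 <= R - d/2 by Step 2 at g; it ends at h t_j, so |h t_j| <= R - d/2;
 the path h * (t_j' -> t_j t_j') (criterion (*) for h with the letter t_j in X) has norms
 <= max |h| |h t_j| - d/2 <= R - d/2 by Step 2 at h (with x := t_j); and h t_j t_j' -> h t_j is an edge (t_j'^-1 in X). Together
 q(g) = g t_j ~ h t_j ~ h t_j t_j' ~ h t_j' = q(h).
 Moreover a ~ q(a) in S' (one edge, |a| <= r2, |a t| <= r1) and b ~ q(b). So a ~ b in S'.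
By induction (R decreases by d/2 each time): any a, b with |a|, |b| <= r2 are joined in {|g| <= r1}: start: joined_univ and
Joined.finite give some R.

Step 4. N = {phi = 0}. Choose for every v in the finite set {v in range phi : norm v <= r1} one element c_v with
phi c_v = v, c_0 = 1. Let Fin = {c_v x c_w^-1 : v, w, x in X} intersected with N, a finite set. Every n in N is a product of
elements of Fin: a path 1 = g_0, ..., g_k = n in {|g| <= r1}; n_i := g_i c_(phi g_i)^-1 lies in N, n_0 = 1, n_k = n, and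
n_i^-1 n_(i+1) = c_(phi g_i) x c_(phi g_(i+1))^-1 lies in Fin. (Induct along ReflTransGen: for every vertex g of the path
g c_(phi g)^-1 lies in closure Fin.) So N = closure Fin.
-/

set_option autoImplicit false
set_option linter.unusedSectionVars false

namespace Pool.Agent.H13.DM

open Topology

variable {K : Type*} [Group K]

section

variable {V : Type*} [NormedAddCommGroup V] [InnerProductSpace ℝ V]

theorem fg_phi_one (φ : K → V) (hφ : ∀ g h, φ (g * h) = φ g + φ h) : φ 1 = 0 := by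
  have h := hφ 1 1
  rw [mul_one] at h
  exact (left_eq_add.mp h)

theorem fg_phi_inv (φ : K → V) (hφ : ∀ g h, φ (g * h) = φ g + φ h) (g : K) : φ g⁻¹ = - φ g := by
  have h := hφ g⁻¹ g
  rw [inv_mul_cancel, fg_phi_one φ hφ] at h
  exact eq_neg_of_add_eq_zero_left h.symm

/-- the good set -/
def fgGood (X : Set K) (φ : K → V) (d E : ℝ) (u : V) (t : K) : Prop :=
  t ∈ X ∧ d ≤ inner ℝ u (φ t) ∧ ∀ x ∈ X,
    Joined X {g | ‖φ g‖ ≤ E ∧ min 0 (inner ℝ u (φ x)) + d ≤ inner ℝ u (φ g)} t (x * t)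

theorem fgGood.mono {X : Set K} {φ : K → V} {d E d' E' : ℝ} {u : V} {t : K}
    (h : fgGood X φ d E u t) (hd : d' ≤ d) (hE : E ≤ E') : fgGood X φ d' E' u t := by
  refine ⟨h.1, hd.trans h.2.1, fun x hx => (h.2.2 x hx).mono ?_⟩
  rintro g ⟨h1, h2⟩
  exact ⟨h1.trans hE, by linarith⟩

/-- a letter with positive value -/
theorem fg_exists_pos {X : Set K} (hX : ∀ x ∈ X, x⁻¹ ∈ X)
    (hgen : Subgroup.closure X = ⊤) (φ : K → V) (hφ : ∀ g h, φ (g * h) = φ g + φ h)
    (hspan : Submodule.span ℝ (Set.range φ) = ⊤) (u : V) (hu : u ≠ 0) :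
    ∃ t ∈ X, 0 < inner ℝ u (φ t) := by
  by_contra hcon
  push Not at hcon
  have h0 : ∀ x ∈ X, inner ℝ u (φ x) = 0 := by
    intro x hx
    have h1 := hcon x hx
    have h2 := hcon _ (hX x hx)
    rw [fg_phi_inv φ hφ, inner_neg_right] at h2
    linarith
  have h1 : ∀ g : K, inner ℝ u (φ g) = 0 := by
    intro g
    have hg : g ∈ Subgroup.closure X := by rw [hgen]; trivial
    induction hg using Subgroup.closure_induction with
    | mem x hx => exact h0 x hx
    | one => rw [fg_phi_one φ hφ, inner_zero_right]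
    | mul x y _ _ hx hy => rw [hφ, inner_add_right, hx, hy, add_zero]
    | inv x _ hx => rw [fg_phi_inv φ hφ, inner_neg_right, hx, neg_zero]
  have h2 : ∀ v : V, inner ℝ u v = 0 := by
    intro v
    have hv : v ∈ Submodule.span ℝ (Set.range φ) := by rw [hspan]; trivial
    induction hv using Submodule.span_induction with
    | mem x hx =>
      obtain ⟨g, rfl⟩ := hx
      exact h1 g
    | zero => exact inner_zero_right _
    | add x y _ _ hx hy => rw [inner_add_right, hx, hy, add_zero]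
    | smul a x _ hx => rw [inner_smul_right, hx, mul_zero]
  exact hu (inner_self_eq_zero.mp (h2 u))

/-- local uniformity -/
theorem fg_local {X : Set K} (hX : ∀ x ∈ X, x⁻¹ ∈ X) (hfin : X.Finite)
    (hgen : Subgroup.closure X = ⊤) (φ : K → V) (hφ : ∀ g h, φ (g * h) = φ g + φ h)
    (hspan : Submodule.span ℝ (Set.range φ) = ⊤)
    (hC : ∀ u : V, u ≠ 0 → Conn X (fun g => inner ℝ u (φ g))) (u₀ : V) (hu : u₀ ≠ 0) :
    ∃ d > 0, ∃ E : ℝ, ∀ᶠ u in 𝓝 u₀, ∃ t, fgGood X φ d E u t := by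
  obtain ⟨t, htX, ht⟩ := fg_exists_pos hX hgen φ hφ hspan u₀ hu
  have h1 := crit_of_conn (X := X) (χ := fun g => inner ℝ u₀ (φ g))
    (fun g h => by simp only [hφ, inner_add_right]) (hC u₀ hu) ht
  have h2 : ∀ x, ∃ F : Finset K, x ∈ X → (∀ g ∈ F, min 0 (inner ℝ u₀ (φ x)) < inner ℝ u₀ (φ g)) ∧
      Joined X (F : Set K) t (x * t) := by
    intro x
    by_cases hx : x ∈ X
    · obtain ⟨F, hF1, hF2⟩ := (h1 x hx).finite
      exact ⟨F, fun _ => ⟨hF1, hF2⟩⟩
    · exact ⟨∅, fun h => absurd h hx⟩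
  choose F hF using h2
  have hcont : ∀ g : K, Continuous fun u : V => (inner ℝ u (φ g) : ℝ) := fun g =>
    continuous_id.inner continuous_const
  -- general lemma
  have hgenl : ∀ f : V → ℝ, Continuous f → 0 < f u₀ →
      ∀ᶠ δ in 𝓝[>] (0 : ℝ), ∀ᶠ u in 𝓝 u₀, δ ≤ f u := by
    intro f hf h0
    have h3 : ∀ᶠ δ in 𝓝[>] (0 : ℝ), δ < f u₀ :=
      (nhdsWithin_le_nhds) (Iio_mem_nhds h0)
    filter_upwards [h3] with δ hδ
    exact (hf.tendsto u₀).eventually_const_le hδ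
  have h3 : ∀ᶠ δ in 𝓝[>] (0 : ℝ), ∀ x ∈ X, ∀ g ∈ (F x : Set K),
      ∀ᶠ u in 𝓝 u₀, δ ≤ inner ℝ u (φ g) - min 0 (inner ℝ u (φ x)) := by
    rw [Filter.eventually_all_finite hfin]
    intro x hx
    rw [Filter.eventually_all_finite (F x).finite_toSet]
    intro g hg
    refine hgenl _ ((hcont g).sub (continuous_const.min (hcont x))) ?_
    have := (hF x hx).1 g hg
    linarith
  have h4 : ∀ᶠ δ in 𝓝[>] (0 : ℝ), ∀ᶠ u in 𝓝 u₀, δ ≤ inner ℝ u (φ t) := hgenl _ (hcont t) ht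
  have h5 : ∀ᶠ δ in 𝓝[>] (0 : ℝ), 0 < δ := self_mem_nhdsWithin
  obtain ⟨δ, hδ1, hδ2, hδ0⟩ := (h3.and (h4.and h5)).exists
  have hfinU : (⋃ x ∈ X, (F x : Set K)).Finite := hfin.biUnion fun x _ => (F x).finite_toSet
  obtain ⟨E, hE⟩ := (hfinU.image (fun g => ‖φ g‖)).bddAbove
  refine ⟨δ, hδ0, E, ?_⟩
  have h6 : ∀ᶠ u in 𝓝 u₀, ∀ x ∈ X, ∀ g ∈ (F x : Set K),
      δ ≤ inner ℝ u (φ g) - min 0 (inner ℝ u (φ x)) := by
    rw [Filter.eventually_all_finite hfin]
    intro x hx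
    rw [Filter.eventually_all_finite (F x).finite_toSet]
    exact fun g hg => hδ1 x hx g hg
  filter_upwards [h6, hδ2] with u hu1 hu2
  refine ⟨t, htX, hu2, fun x hx => ((hF x hx).2).mono ?_⟩
  intro g hg
  refine ⟨?_, ?_⟩
  · apply hE
    exact ⟨g, Set.mem_biUnion hx hg, rfl⟩
  · have := hu1 x hx g hg
    linarith

/-- global uniformity (step 1) -/
theorem fg_uniform [FiniteDimensional ℝ V] {X : Set K} (hX : ∀ x ∈ X, x⁻¹ ∈ X) (hfin : X.Finite)
    (hgen : Subgroup.closure X = ⊤) (φ : K → V) (hφ : ∀ g h, φ (g * h) = φ g + φ h)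
    (hspan : Submodule.span ℝ (Set.range φ) = ⊤)
    (hC : ∀ u : V, u ≠ 0 → Conn X (fun g => inner ℝ u (φ g))) :
    ∃ d > 0, ∃ E : ℝ, d ≤ E ∧ 1 ≤ E ∧ (∀ x ∈ X, ‖φ x‖ ≤ E) ∧
      ∀ u : V, ‖u‖ = 1 → ∃ t, fgGood X φ d E u t := by
  have hcomp : IsCompact (Metric.sphere (0 : V) 1) := by
    have : ProperSpace V := FiniteDimensional.proper ℝ V
    exact isCompact_sphere 0 1
  have key : ∃ d > 0, ∃ E : ℝ, ∀ u ∈ Metric.sphere (0 : V) 1, ∃ t, fgGood X φ d E u t := by
    refine hcomp.induction_on (p := fun S => ∃ d > 0, ∃ E : ℝ, ∀ u ∈ S, ∃ t, fgGood X φ d E u t)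
      ?_ ?_ ?_ ?_
    · exact ⟨1, one_pos, 0, fun u hu => absurd hu (Set.notMem_empty u)⟩
    · rintro S T hST ⟨d, hd, E, h⟩
      exact ⟨d, hd, E, fun u hu => h u (hST hu)⟩
    · rintro S T ⟨d, hd, E, h⟩ ⟨d', hd', E', h'⟩
      refine ⟨min d d', lt_min hd hd', max E E', ?_⟩
      rintro u (hu | hu)
      · obtain ⟨t, ht⟩ := h u hu
        exact ⟨t, ht.mono (min_le_left _ _) (le_max_left _ _)⟩
      · obtain ⟨t, ht⟩ := h' u hu
        exact ⟨t, ht.mono (min_le_right _ _) (le_max_right _ _)⟩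
    · intro u hu
      have hu0 : u ≠ 0 := by
        rintro rfl
        simp at hu
      obtain ⟨d, hd, E, h⟩ := fg_local hX hfin hgen φ hφ hspan hC u hu0
      exact ⟨{u | ∃ t, fgGood X φ d E u t}, mem_nhdsWithin_of_mem_nhds h, d, hd, E,
        fun v hv => hv⟩
  obtain ⟨d, hd, E, h⟩ := key
  obtain ⟨B, hB⟩ := (hfin.image (fun g => ‖φ g‖)).bddAbove
  refine ⟨d, hd, max (max E d) (max 1 B), ?_, ?_, ?_, ?_⟩
  · exact (le_max_right _ _).trans (le_max_left _ _)
  · exact (le_max_left _ _).trans (le_max_right _ _)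
  · intro x hx
    exact (hB ⟨x, hx, rfl⟩).trans ((le_max_right _ _).trans (le_max_right _ _))
  · intro u hu
    obtain ⟨t, ht⟩ := h u (by simpa using hu)
    exact ⟨t, ht.mono le_rfl ((le_max_left _ _).trans (le_max_left _ _))⟩

/-- the push lemma (step 2) -/
theorem fg_push (φ : K → V) (hφ : ∀ g h, φ (g * h) = φ g + φ h) {d E : ℝ} (hd : 0 < d)
    (hdE : d ≤ E) {g x p : K} (hg : E ^ 2 / d ≤ ‖φ g‖) (hp : ‖φ p‖ ≤ E)
    (hp2 : min 0 (inner ℝ (-(‖φ g‖⁻¹ • φ g)) (φ x)) + d ≤ inner ℝ (-(‖φ g‖⁻¹ • φ g)) (φ p)) :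
    ‖φ (g * p)‖ ≤ max ‖φ g‖ ‖φ (g * x)‖ - d / 2 := by
  have hE : 0 < E := lt_of_lt_of_le hd hdE
  have hG : 0 < ‖φ g‖ := lt_of_lt_of_le (by positivity) hg
  have hGd : E ^ 2 ≤ ‖φ g‖ * d := by
    rw [div_le_iff₀ hd] at hg
    exact hg
  have hGE : d ≤ ‖φ g‖ := by
    have : d * d ≤ ‖φ g‖ * d := by nlinarith
    exact le_of_mul_le_mul_right this hd
  set G := ‖φ g‖ with hGdef
  have hin : ∀ v : V, inner ℝ (-(G⁻¹ • φ g)) v = -(G⁻¹ * inner ℝ (φ g) v) := by
    intro v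
    rw [inner_neg_left, real_inner_smul_left]
  rw [hin, hin] at hp2
  -- the maximum
  have hmax : G - min 0 (-(G⁻¹ * inner ℝ (φ g) (φ x))) ≤ max G ‖φ (g * x)‖ := by
    rcases le_total 0 (-(G⁻¹ * inner ℝ (φ g) (φ x))) with h | h
    · rw [min_eq_left h, sub_zero]
      exact le_max_left _ _
    · rw [min_eq_right h]
      refine le_trans ?_ (le_max_right _ _)
      have h1 : inner ℝ (φ g) (φ (g * x)) ≤ G * ‖φ (g * x)‖ := real_inner_le_norm _ _
      rw [hφ g x, inner_add_right, real_inner_self_eq_norm_sq, ← hGdef, ← hφ g x] at h1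
      have h2 : G * (G - -(G⁻¹ * inner ℝ (φ g) (φ x))) = G ^ 2 + inner ℝ (φ g) (φ x) := by
        field_simp
        ring
      have h3 : G * (G - -(G⁻¹ * inner ℝ (φ g) (φ x))) ≤ G * ‖φ (g * x)‖ := by rw [h2]; exact h1
      exact le_of_mul_le_mul_left h3 hG
  refine le_trans ?_ (sub_le_sub_right hmax (d / 2))
  set m := min 0 (-(G⁻¹ * inner ℝ (φ g) (φ x))) with hm
  have hm0 : m ≤ 0 := min_le_left _ _
  have hpp : inner ℝ (φ g) (φ p) ≤ - G * (m + d) := by
    have h1 : inner ℝ (φ g) (φ p) = - G * (-(G⁻¹ * inner ℝ (φ g) (φ p))) := by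
      field_simp
    rw [h1]
    exact mul_le_mul_of_nonpos_left hp2 (by linarith)
  have hsq : ‖φ (g * p)‖ ^ 2 ≤ (G - m - d / 2) ^ 2 := by
    rw [hφ g p, norm_add_sq_real, ← hGdef]
    have h2 : ‖φ p‖ ^ 2 ≤ E ^ 2 := pow_le_pow_left₀ (norm_nonneg _) hp 2
    nlinarith [sq_nonneg (m + d / 2)]
  exact le_of_sq_le_sq hsq (by linarith)

/-- consequence of steps 1 and 2 -/
theorem fg_star [FiniteDimensional ℝ V] {X : Set K} (hX : ∀ x ∈ X, x⁻¹ ∈ X) (hfin : X.Finite)
    (hgen : Subgroup.closure X = ⊤) (φ : K → V) (hφ : ∀ g h, φ (g * h) = φ g + φ h)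
    (hspan : Submodule.span ℝ (Set.range φ) = ⊤)
    (hC : ∀ u : V, u ≠ 0 → Conn X (fun g => inner ℝ u (φ g))) :
    ∃ d > 0, ∃ E > 0, ∃ r0 : ℝ, 0 < r0 ∧ (∀ x ∈ X, ‖φ x‖ ≤ E) ∧
      ∀ g : K, r0 ≤ ‖φ g‖ → ∃ t ∈ X, ‖φ (g * t)‖ ≤ ‖φ g‖ - d / 2 ∧
        ∀ x ∈ X, Joined X {h | ‖φ h‖ ≤ max ‖φ g‖ ‖φ (g * x)‖ - d / 2} (g * t) (g * (x * t)) := by
  obtain ⟨d, hd, E, hdE, hE1, hXE, hu⟩ := fg_uniform hX hfin hgen φ hφ hspan hC
  have hE : 0 < E := lt_of_lt_of_le hd hdE
  refine ⟨d, hd, E, hE, E ^ 2 / d, by positivity, hXE, ?_⟩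
  intro g hg
  have hG : 0 < ‖φ g‖ := lt_of_lt_of_le (by positivity) hg
  have hnorm : ‖-(‖φ g‖⁻¹ • φ g)‖ = 1 := by
    rw [norm_neg, norm_smul, norm_inv, norm_norm, inv_mul_cancel₀ hG.ne']
  obtain ⟨t, htX, ht1, ht2⟩ := hu _ hnorm
  refine ⟨t, htX, ?_, ?_⟩
  · have h1 := fg_push φ hφ hd hdE (g := g) (x := 1) (p := t) hg (hXE t htX) (by
      rw [fg_phi_one φ hφ, inner_zero_right, min_self, zero_add]
      exact ht1)
    rwa [mul_one, max_self] at h1
  · intro x hx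
    refine (ht2 x hx).translate g ?_
    rintro p ⟨hp1, hp2⟩
    exact fg_push φ hφ hd hdE hg hp1 hp2

/-- step 3, one descent -/
theorem fg_descent {X : Set K} (hX : ∀ x ∈ X, x⁻¹ ∈ X) (φ : K → V)
    (hφ : ∀ g h, φ (g * h) = φ g + φ h) {d E r0 : ℝ} (hd : 0 < d) (hE : 0 < E) (hr0 : 0 < r0)
    (hXE : ∀ x ∈ X, ‖φ x‖ ≤ E)
    (hs : ∀ g : K, r0 ≤ ‖φ g‖ → ∃ t ∈ X, ‖φ (g * t)‖ ≤ ‖φ g‖ - d / 2 ∧
        ∀ x ∈ X, Joined X {h | ‖φ h‖ ≤ max ‖φ g‖ ‖φ (g * x)‖ - d / 2} (g * t) (g * (x * t)))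
    {R : ℝ} {a b : K} (ha : ‖φ a‖ ≤ r0 + E) (hb : ‖φ b‖ ≤ r0 + E)
    (h : Joined X {g | ‖φ g‖ ≤ R} a b) :
    Joined X {g | ‖φ g‖ ≤ max (r0 + E + E) (R - d / 2)} a b := by
  classical
  choose! T hTX hT1 hT2 using hs
  set S' : Set K := {g | ‖φ g‖ ≤ max (r0 + E + E) (R - d / 2)} with hS'
  have hsmall : ∀ g : K, ‖φ g‖ ≤ r0 + E + E → g ∈ S' := fun g hg => hg.trans (le_max_left _ _)
  have hR : ∀ g : K, ‖φ g‖ ≤ R - d / 2 → g ∈ S' := fun g hg => hg.trans (le_max_right _ _)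
  have hstep : ∀ g x : K, x ∈ X → ‖φ (g * x)‖ ≤ ‖φ g‖ + E := by
    intro g x hx
    rw [hφ]
    exact (norm_add_le _ _).trans (by linarith [hXE x hx])
  let q : K → K := fun g => if r0 ≤ ‖φ g‖ then g * T g else g
  have hq1 : ∀ g, r0 ≤ ‖φ g‖ → q g = g * T g := fun g hg => if_pos hg
  have hq2 : ∀ g, ¬ r0 ≤ ‖φ g‖ → q g = g := fun g hg => if_neg hg
  -- an element of norm at most `r0 + E` is joined to its image
  have hend : ∀ g : K, ‖φ g‖ ≤ r0 + E → Joined X S' g (q g) := by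
    intro g hg
    by_cases hg0 : r0 ≤ ‖φ g‖
    · rw [hq1 g hg0]
      refine Joined.single (hsmall g (by linarith)) (hsmall _ ?_) ?_
      · linarith [hT1 g hg0]
      · rw [inv_mul_cancel_left]
        exact hTX g hg0
    · rw [hq2 g hg0]
      exact Joined.refl (hsmall g (by linarith))
  have hmap : ∀ g h, g ∈ {g : K | ‖φ g‖ ≤ R} → h ∈ {g : K | ‖φ g‖ ≤ R} → g⁻¹ * h ∈ X →
      Joined X S' (q g) (q h) := by
    intro g h hg hh hgh
    have hgR : ‖φ g‖ ≤ R := hg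
    have hhR : ‖φ h‖ ≤ R := hh
    obtain ⟨x, hx⟩ : ∃ x, x = g⁻¹ * h := ⟨_, rfl⟩
    have hhx : h = g * x := by rw [hx, mul_inv_cancel_left]
    have hgx : g = h * x⁻¹ := by rw [hhx, mul_inv_cancel_right]
    have hxX : x ∈ X := by rw [hx]; exact hgh
    by_cases hg0 : r0 ≤ ‖φ g‖
    · by_cases hh0 : r0 ≤ ‖φ h‖
      · rw [hq1 g hg0, hq1 h hh0]
        have j1 := hT2 g hg0 x hxX
        have e1 : g * (x * T g) = h * T g := by rw [hhx, mul_assoc]
        rw [e1, ← hhx] at j1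
        have j1' : Joined X S' (g * T g) (h * T g) := by
          refine j1.mono ?_
          intro p hp
          refine hR p (le_trans hp ?_)
          have := max_le hgR hhR
          linarith
        have hle : ‖φ (h * T g)‖ ≤ R - d / 2 := by
          have h1 : ‖φ (h * T g)‖ ≤ max ‖φ g‖ ‖φ h‖ - d / 2 := j1.right_mem
          have := max_le hgR hhR
          linarith
        have j2 := hT2 h hh0 (T g) (hTX g hg0)
        have j2' : Joined X S' (h * T h) (h * (T g * T h)) := by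
          refine j2.mono ?_
          intro p hp
          refine hR p (le_trans hp ?_)
          have := max_le hhR (show ‖φ (h * T g)‖ ≤ R by linarith)
          linarith
        have j3 : Joined X S' (h * T g) (h * (T g * T h)) := by
          refine Joined.single (hR _ hle) j2'.right_mem ?_
          have h1 : (h * T g)⁻¹ * (h * (T g * T h)) = T h := by group
          rw [h1]
          exact hTX h hh0
        exact j1'.trans (j3.trans (j2'.symm hX))
      · rw [hq1 g hg0, hq2 h hh0]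
        have hgE : ‖φ g‖ ≤ r0 + E := by
          have h1 := hstep h x⁻¹ (hX x hxX)
          rw [← hgx] at h1
          push Not at hh0
          linarith
        have j0 := hend g hgE
        rw [hq1 g hg0] at j0
        refine (j0.symm hX).trans (Joined.single (hsmall g (by linarith)) (hsmall h ?_) hgh)
        push Not at hh0
        linarith
    · by_cases hh0 : r0 ≤ ‖φ h‖
      · rw [hq2 g hg0, hq1 h hh0]
        have hhE : ‖φ h‖ ≤ r0 + E := by
          have h1 := hstep g x hxX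
          rw [← hhx] at h1
          push Not at hg0
          linarith
        have j0 := hend h hhE
        rw [hq1 h hh0] at j0
        push Not at hg0
        exact (Joined.single (hsmall g (by linarith)) (hsmall h (by linarith)) hgh).trans j0
      · rw [hq2 g hg0, hq2 h hh0]
        push Not at hg0 hh0
        exact Joined.single (hsmall g (by linarith)) (hsmall h (by linarith)) hgh
  have h0 : ∀ g ∈ {g : K | ‖φ g‖ ≤ R}, q g ∈ S' := by
    intro g hg
    have hgR : ‖φ g‖ ≤ R := hg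
    by_cases hg0 : r0 ≤ ‖φ g‖
    · rw [hq1 g hg0]
      exact hR _ ((hT1 g hg0).trans (by linarith))
    · rw [hq2 g hg0]
      push Not at hg0
      exact hsmall g (by linarith)
  have hmid := h.map q hmap h0
  exact (hend a ha).trans (hmid.trans ((hend b hb).symm hX))

/-- step 3 -/
theorem fg_conn [FiniteDimensional ℝ V] {X : Set K} (hX : ∀ x ∈ X, x⁻¹ ∈ X) (hfin : X.Finite)
    (hgen : Subgroup.closure X = ⊤) (φ : K → V) (hφ : ∀ g h, φ (g * h) = φ g + φ h)
    (hspan : Submodule.span ℝ (Set.range φ) = ⊤)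
    (hC : ∀ u : V, u ≠ 0 → Conn X (fun g => inner ℝ u (φ g))) :
    ∃ r1 : ℝ, ∀ n : K, φ n = 0 → Joined X {g | ‖φ g‖ ≤ r1} 1 n := by
  obtain ⟨d, hd, E, hE, r0, hr0, hXE, hs⟩ := fg_star hX hfin hgen φ hφ hspan hC
  refine ⟨r0 + E + E, ?_⟩
  have key : ∀ m : ℕ, ∀ a b : K, ‖φ a‖ ≤ r0 + E → ‖φ b‖ ≤ r0 + E →
      Joined X {g | ‖φ g‖ ≤ r0 + E + E + m * (d / 2)} a b →
      Joined X {g | ‖φ g‖ ≤ r0 + E + E} a b := by
    intro m
    induction m with
    | zero =>
      intro a b _ _ h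
      simpa using h
    | succ m ih =>
      intro a b ha hb h
      refine ih a b ha hb ((fg_descent hX φ hφ hd hE hr0 hXE hs ha hb h).mono ?_)
      intro g hg
      have hg' : ‖φ g‖ ≤ max (r0 + E + E) (r0 + E + E + (m + 1 : ℕ) * (d / 2) - d / 2) := hg
      change ‖φ g‖ ≤ r0 + E + E + m * (d / 2)
      refine le_trans hg' (max_le ?_ ?_)
      · have : (0 : ℝ) ≤ m * (d / 2) := by positivity
        linarith
      · push_cast
        linarith
  intro n hn
  obtain ⟨F, -, hF⟩ := (joined_univ hX hgen 1 n).finite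
  obtain ⟨B, hB⟩ := ((F.finite_toSet).image (fun g => ‖φ g‖)).bddAbove
  obtain ⟨m, hm⟩ := exists_nat_ge (B / (d / 2))
  refine key m 1 n ?_ ?_ (hF.mono ?_)
  · rw [fg_phi_one φ hφ, norm_zero]; linarith
  · rw [hn, norm_zero]; linarith
  · intro g hg
    have h1 : ‖φ g‖ ≤ B := hB ⟨g, hg, rfl⟩
    have h2 : B ≤ m * (d / 2) := by
      rw [div_le_iff₀ (by linarith)] at hm
      exact hm
    change ‖φ g‖ ≤ _
    linarith

end

theorem ker_fg {V : Type*} [NormedAddCommGroup V] [InnerProductSpace ℝ V]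
    [FiniteDimensional ℝ V] {X : Set K} (hX : ∀ x ∈ X, x⁻¹ ∈ X) (hfin : X.Finite)
    (hgen : Subgroup.closure X = ⊤) (φ : K → V) (hφ : ∀ g h, φ (g * h) = φ g + φ h)
    (hspan : Submodule.span ℝ (Set.range φ) = ⊤)
    (hdisc : ∀ r : ℝ, {v : V | v ∈ Set.range φ ∧ ‖v‖ ≤ r}.Finite)
    (hC : ∀ u : V, u ≠ 0 → Conn X (fun g => inner ℝ u (φ g)))
    (N : Subgroup K) (hN : ∀ g, g ∈ N ↔ φ g = 0) : N.FG := by
  classical
  obtain ⟨r1, hr1⟩ := fg_conn hX hfin hgen φ hφ hspan hC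
  have hφ1 := fg_phi_one φ hφ
  have hφi := fg_phi_inv φ hφ
  have hc0 : ∀ v : V, ∃ c : K, (v ∈ Set.range φ → φ c = v) ∧ (v = 0 → c = 1) := by
    intro v
    by_cases hv : v = 0
    · exact ⟨1, fun _ => by rw [hv, hφ1], fun _ => rfl⟩
    · by_cases hv2 : v ∈ Set.range φ
      · obtain ⟨g, hg⟩ := hv2
        exact ⟨g, fun _ => hg, fun h => absurd h hv⟩
      · exact ⟨1, fun h => absurd h hv2, fun h => absurd h hv⟩
  choose c hc1 hc2 using hc0
  set B : Set V := {v : V | v ∈ Set.range φ ∧ ‖v‖ ≤ r1} with hB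
  have hBfin : B.Finite := hdisc r1
  let Fin0 : Set K := (fun p : V × K × V => c p.1 * p.2.1 * (c p.2.2)⁻¹) '' (B ×ˢ X ×ˢ B)
  have hFin0 : Fin0.Finite := (hBfin.prod (hfin.prod hBfin)).image _
  rw [Subgroup.fg_iff]
  refine ⟨Fin0 ∩ N, ?_, hFin0.inter_of_left _⟩
  apply le_antisymm
  · rw [Subgroup.closure_le]
    exact Set.inter_subset_right
  · intro n hn
    have hn0 : φ n = 0 := (hN n).1 hn
    obtain ⟨hmem, hpath⟩ := hr1 n hn0
    have key : ∀ g, Relation.ReflTransGen (Step X {g | ‖φ g‖ ≤ r1}) 1 g →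
        g * (c (φ g))⁻¹ ∈ Subgroup.closure (Fin0 ∩ (N : Set K)) ∧ ‖φ g‖ ≤ r1 := by
      intro g hg
      induction hg with
      | refl =>
        refine ⟨?_, hmem⟩
        rw [hφ1, hc2 0 rfl, inv_one, mul_one]
        exact Subgroup.one_mem _
      | tail h1 h2 ih =>
        rename_i g h
        obtain ⟨ih1, ih2⟩ := ih
        obtain ⟨hh, hx⟩ := h2
        have hh' : ‖φ h‖ ≤ r1 := hh
        refine ⟨?_, hh'⟩
        obtain ⟨x, hxdef⟩ : ∃ x, x = g⁻¹ * h := ⟨_, rfl⟩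
        have hhx : h = g * x := by rw [hxdef, mul_inv_cancel_left]
        rw [← hxdef] at hx
        have h3 : h * (c (φ h))⁻¹ = (g * (c (φ g))⁻¹) * (c (φ g) * x * (c (φ h))⁻¹) := by
          rw [hhx]; group
        rw [h3]
        refine Subgroup.mul_mem _ ih1 (Subgroup.subset_closure ⟨?_, ?_⟩)
        · exact ⟨(φ g, x, φ h), ⟨⟨⟨g, rfl⟩, ih2⟩, hx, ⟨⟨h, rfl⟩, hh'⟩⟩, rfl⟩
        · change _ ∈ N
          rw [hN, hφ, hφ, hφi, hc1 _ ⟨g, rfl⟩, hc1 _ ⟨h, rfl⟩]
          have h4 : φ h = φ g + φ x := by rw [hhx, hφ]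
          rw [h4]
          abel
    have h1 := (key n hpath).1
    rwa [hn0, hc2 0 rfl, inv_one, mul_one] at h1

end Pool.Agent.H13.DM
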