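import Mathlib
import Pool.Agent.H13.DM.BNS.Joined
import Pool.Agent.H13.DM.BNS.Crit

/-!
MP_9d29f5_al, project DM, block D, file Graph (job DM-GRAPH): the finite criterion for a graph V
with a height function h and an ascending map tau.
Prove conn_of_graph in place (helper lemmas welcome; lemmas of Crit.lean, in particular conn_of_weak, may be used).

PAPER PROOF. E is symmetric. Write v ~_c w for JV E {u | c <= h u} v w. It is an equivalence relation on {c <= h}, monotone in c.
(push) v ~_c w implies tau v ~_(c+eps) tau w: induct along the path; for v = w (c <= h v) use h0; for a step u -> u' inside {c <= h} use h2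
(min (h u) (h u') + eps >= c + eps). Iterate: tau^m v ~_(c + m eps) tau^m w.
(escape) v ~_(h v - A) tau^m v for all m: h (tau^i v) >= h v by h0, so each piece tau^i v -> tau^(i+1) v of h1 stays in {h v - A <= h}.
(weak) for all v, w with c <= h v, c <= h w: v ~_(c - A) w: by hconn there is a path from v to w, it has finitely many vertices, so v ~_(c0) w for some c0; choose
m with c0 + m eps >= c - A, combine v ~ tau^m v ~ tau^m w ~ w. (A >= 0 may be assumed: replace A by max A 0.)
(transfer) for a, b in H with c <= chi a, chi b: h (sigma a) >= c - B, so sigma a ~_(c - B - A) sigma b; apply pi: every step goes to a step in X or to equality, and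
chi (pi u) >= h u - B >= c - A - 2B. So Joined X {c - A - 2B <= chi} a b (pi (sigma a) = a). Conclude with conn_of_weak.
-/
set_option autoImplicit false

namespace Pool.Agent.H13.DM

/-- v and w are joined in the graph E by a path inside S -/
def JV {V : Type*} (E : V → V → Prop) (S : Set V) (v w : V) : Prop :=
  v ∈ S ∧ Relation.ReflTransGen (fun a b => E a b ∧ b ∈ S) v w

section JV

variable {V : Type*} {E : V → V → Prop}

theorem JV.refl {S : Set V} {v : V} (h : v ∈ S) : JV E S v v := ⟨h, .refl⟩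

theorem JV.right_mem {S : Set V} {v w : V} (h : JV E S v w) : w ∈ S := by
  obtain ⟨h1, h2⟩ := h
  induction h2 with
  | refl => exact h1
  | tail _ h3 _ => exact h3.2

theorem JV.trans {S : Set V} {u v w : V} (h : JV E S u v) (h' : JV E S v w) : JV E S u w :=
  ⟨h.1, h.2.trans h'.2⟩

theorem JV.symm (hE : ∀ v w, E v w → E w v) {S : Set V} {v w : V} (h : JV E S v w) :
    JV E S w v := by
  obtain ⟨h1, h2⟩ := h
  induction h2 with
  | refl => exact JV.refl h1
  | tail h3 h4 ih =>
    rename_i b c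
    exact ⟨h4.2, (Relation.ReflTransGen.single ⟨hE _ _ h4.1, ih.1⟩).trans ih.2⟩

theorem JV.mono {S T : Set V} (hST : S ⊆ T) {v w : V} (h : JV E S v w) : JV E T v w := by
  obtain ⟨h1, h2⟩ := h
  induction h2 with
  | refl => exact JV.refl (hST h1)
  | tail _ h4 ih => exact ⟨ih.1, ih.2.tail ⟨h4.1, hST h4.2⟩⟩

theorem JV.map {W : Type*} {E' : W → W → Prop} {S : Set V} {T : Set W} (f : V → W)
    (hf : ∀ v w, v ∈ S → w ∈ S → E v w → JV E' T (f v) (f w)) (h0 : ∀ v ∈ S, f v ∈ T)
    {v w : V} (h : JV E S v w) : JV E' T (f v) (f w) := by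
  have h1 := h.1
  have key : ∀ w, Relation.ReflTransGen (fun a b => E a b ∧ b ∈ S) v w →
      JV E' T (f v) (f w) := by
    intro w hw
    induction hw with
    | refl => exact JV.refl (h0 v h1)
    | tail h3 h4 ih =>
      rename_i b c
      have hb : b ∈ S := JV.right_mem (E := E) (v := v) ⟨h1, h3⟩
      exact ih.trans (hf b c hb h4.2 h4.1)
  exact key w h.2

theorem JV.exists_le (h : V → ℝ) {v w : V} (hvw : Relation.ReflTransGen E v w) :
    ∃ c : ℝ, JV E {u | c ≤ h u} v w := by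
  induction hvw with
  | refl => exact ⟨h v, JV.refl (le_refl (h v))⟩
  | tail h3 h2 ih =>
    rename_i b c
    obtain ⟨c₀, hc₀⟩ := ih
    refine ⟨min c₀ (h c), ?_⟩
    have h4 : JV E {u | min c₀ (h c) ≤ h u} v b := by
      refine hc₀.mono fun u hu => ?_
      have hu' : c₀ ≤ h u := hu
      exact (min_le_left _ _).trans hu'
    have h5 : min c₀ (h c) ≤ h c := min_le_right _ _
    exact ⟨h4.1, h4.2.tail ⟨h2, h5⟩⟩

theorem JV.push {h : V → ℝ} {τ : V → V} {ε : ℝ} (h0 : ∀ v, h v + ε ≤ h (τ v))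
    (h2 : ∀ v w, E v w → JV E {u | min (h v) (h w) + ε ≤ h u} (τ v) (τ w)) {c : ℝ} {v w : V}
    (hv : JV E {u | c ≤ h u} v w) : JV E {u | c + ε ≤ h u} (τ v) (τ w) := by
  refine hv.map τ (fun v w hv hw hE => ?_) (fun v hv => ?_)
  · refine (h2 v w hE).mono fun u hu => ?_
    have hu' : min (h v) (h w) + ε ≤ h u := hu
    have h3 : c ≤ min (h v) (h w) := le_min hv hw
    show c + ε ≤ h u
    linarith
  · have hv' : c ≤ h v := hv
    show c + ε ≤ h (τ v)
    linarith [h0 v]

theorem JV.push_iter {h : V → ℝ} {τ : V → V} {ε : ℝ} (h0 : ∀ v, h v + ε ≤ h (τ v))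
    (h2 : ∀ v w, E v w → JV E {u | min (h v) (h w) + ε ≤ h u} (τ v) (τ w)) {c : ℝ} {v w : V}
    (hv : JV E {u | c ≤ h u} v w) (m : ℕ) :
    JV E {u | c + m * ε ≤ h u} (τ^[m] v) (τ^[m] w) := by
  induction m with
  | zero => simpa using hv
  | succ m ih =>
    rw [Function.iterate_succ_apply', Function.iterate_succ_apply']
    refine (JV.push h0 h2 ih).mono fun u hu => ?_
    have hu' : c + m * ε + ε ≤ h u := hu
    show c + ((m + 1 : ℕ) : ℝ) * ε ≤ h u
    push_cast
    linarith

theorem JV.le_iter {h : V → ℝ} {τ : V → V} {ε : ℝ} (hε : 0 < ε) (h0 : ∀ v, h v + ε ≤ h (τ v))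
    (v : V) (m : ℕ) : h v ≤ h (τ^[m] v) := by
  induction m with
  | zero => exact le_refl _
  | succ m ih =>
    rw [Function.iterate_succ_apply']
    linarith [h0 (τ^[m] v)]

theorem JV.escape {h : V → ℝ} {τ : V → V} {ε A : ℝ} (hε : 0 < ε) (hA : 0 ≤ A)
    (h0 : ∀ v, h v + ε ≤ h (τ v)) (h1 : ∀ v, JV E {u | h v - A ≤ h u} v (τ v)) (v : V) (m : ℕ) :
    JV E {u | h v - A ≤ h u} v (τ^[m] v) := by
  induction m with
  | zero =>
    refine JV.refl ?_
    show h v - A ≤ h v
    linarith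
  | succ m ih =>
    rw [Function.iterate_succ_apply']
    refine ih.trans ((h1 _).mono fun u hu => ?_)
    have hu' : h (τ^[m] v) - A ≤ h u := hu
    show h v - A ≤ h u
    linarith [JV.le_iter hε h0 v m]

theorem JV.weak {h : V → ℝ} {τ : V → V} {ε A : ℝ} (hEs : ∀ v w, E v w → E w v)
    (hε : 0 < ε) (hA : 0 ≤ A) (hconn : ∀ v w, Relation.ReflTransGen E v w)
    (h0 : ∀ v, h v + ε ≤ h (τ v)) (h1 : ∀ v, JV E {u | h v - A ≤ h u} v (τ v))
    (h2 : ∀ v w, E v w → JV E {u | min (h v) (h w) + ε ≤ h u} (τ v) (τ w))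
    {v w : V} {c : ℝ} (hv : c ≤ h v) (hw : c ≤ h w) : JV E {u | c - A ≤ h u} v w := by
  obtain ⟨c₀, hc₀⟩ := JV.exists_le h (hconn v w)
  obtain ⟨m, hm⟩ := exists_nat_gt ((c - A - c₀) / ε)
  have hm' : c - A - c₀ < m * ε := (div_lt_iff₀ hε).1 hm
  have e1 : JV E {u | c - A ≤ h u} v (τ^[m] v) := by
    refine (JV.escape hε hA h0 h1 v m).mono fun u hu => ?_
    have hu' : h v - A ≤ h u := hu
    show c - A ≤ h u
    linarith
  have e2 : JV E {u | c - A ≤ h u} w (τ^[m] w) := by
    refine (JV.escape hε hA h0 h1 w m).mono fun u hu => ?_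
    have hu' : h w - A ≤ h u := hu
    show c - A ≤ h u
    linarith
  have e3 : JV E {u | c - A ≤ h u} (τ^[m] v) (τ^[m] w) := by
    refine (JV.push_iter h0 h2 hc₀ m).mono fun u hu => ?_
    have hu' : c₀ + m * ε ≤ h u := hu
    show c - A ≤ h u
    linarith
  exact (e1.trans e3).trans (e2.symm hEs)

/-- transfer of paths to the group -/
theorem JV.transfer {H : Type*} [Group H] {X : Set H} {S : Set V} {T : Set H} (π : V → H)
    (hE : ∀ v w, E v w → (π v)⁻¹ * π w ∈ X ∨ π v = π w) (h0 : ∀ v ∈ S, π v ∈ T)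
    {v w : V} (h : JV E S v w) : Joined X T (π v) (π w) := by
  have h1 := h.1
  have key : ∀ w, Relation.ReflTransGen (fun a b => E a b ∧ b ∈ S) v w →
      Joined X T (π v) (π w) := by
    intro w hw
    induction hw with
    | refl => exact Joined.refl (h0 v h1)
    | tail h3 h4 ih =>
      rename_i b c
      rcases hE b c h4.1 with h5 | h5
      · exact ih.tail (h0 c h4.2) h5
      · rw [← h5]; exact ih
  exact key w h.2

end JV

theorem conn_of_graph {H V : Type*} [Group H] {X : Set H} (hX : ∀ x ∈ X, x⁻¹ ∈ X)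
    (hgen : Subgroup.closure X = ⊤) {χ : H → ℝ} (hχ : ∀ g h, χ (g * h) = χ g + χ h)
    (E : V → V → Prop) (hEs : ∀ v w, E v w → E w v) (h : V → ℝ) (τ : V → V) (π : V → H)
    (σ : H → V) (A B ε : ℝ) (hε : 0 < ε)
    (hσ : ∀ k, π (σ k) = k) (hB : ∀ v, |χ (π v) - h v| ≤ B)
    (hE : ∀ v w, E v w → (π v)⁻¹ * π w ∈ X ∨ π v = π w)
    (hconn : ∀ v w, Relation.ReflTransGen E v w)
    (h0 : ∀ v, h v + ε ≤ h (τ v))
    (h1 : ∀ v, JV E {u | h v - A ≤ h u} v (τ v))
    (h2 : ∀ v w, E v w → JV E {u | min (h v) (h w) + ε ≤ h u} (τ v) (τ w)) :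
    Conn X χ := by
  have h1' : ∀ v, JV E {u | h v - max A 0 ≤ h u} v (τ v) := fun v =>
    (h1 v).mono fun u hu => by
      have hu' : h v - A ≤ h u := hu
      show h v - max A 0 ≤ h u
      linarith [le_max_left A 0]
  refine conn_of_weak hX hgen hχ (max A 0 + 2 * B) fun a b c ha hb => ?_
  have hBa := hB (σ a)
  have hBb := hB (σ b)
  rw [hσ] at hBa hBb
  have hw := JV.weak hEs hε (le_max_right A 0) hconn h0 h1' h2 (v := σ a) (w := σ b)
    (c := c - B) (by linarith [(abs_le.1 hBa).2]) (by linarith [(abs_le.1 hBb).2])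
  have ht := JV.transfer (X := X) (T := {g | c - (max A 0 + 2 * B) ≤ χ g}) π hE
    (fun v hv => ?_) hw
  · rwa [hσ, hσ] at ht
  · have hv' : c - B - max A 0 ≤ h v := hv
    show c - (max A 0 + 2 * B) ≤ χ (π v)
    linarith [(abs_le.1 (hB v)).1]

end Pool.Agent.H13.DM
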